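import Pool.Agent.Lib.MP_651af7_nt.Am.Nev

/-! A generically finite projection gives a cone of full dimension. -/

namespace Pool.Agent.Lib.MP_651af7_nt.Am3

open Finset Module Am

variable {F K : Type} [Field F] [Field K] [Algebra F K] {R N : ℕ} {ξ : Fin R × Fin N → K}

theorem big_one (b : Fin R) (a : Fin N) : ξ (b, a) ∈ bm F ξ (Pi.single b 1) := by
  refine Submodule.subset_span ⟨Pi.single (b, a) 1, fun c => ?_, by simp [Pi.single_apply]⟩
  rcases eq_or_ne c b with rfl | h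
  · simp [Pi.single_apply]
  · simp [h]

theorem big_fin (Y : Fin R → ℕ) : Module.Finite F (bm F ξ Y) := by
  obtain ⟨r, α, -, -, h⟩ := Fc.mon_basis (F := F) (f := mn (Y := Y) ξ) 1
  rw [← nev_mon, ← h]
  exact Module.Finite.span_of_finite F (Set.finite_range _)

theorem big_low (ξ1 : ∀ b, ∃ a, ξ (b, a) ≠ 0) {n : ℕ} {β : Fin n → Fin R} {a a' : Fin n → Fin N}
    (h : AlgebraicIndependent F fun i => ξ (β i, a i) / ξ (β i, a' i)) (m D : ℕ) :
    (m + 1) ^ n ≤ finrank F (bm F ξ fun b => ∑ i, m * (Pi.single (β i) 1 : Fin R → ℕ) b + D) := by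
  classical
  choose ε hε using ξ1
  have h0 : ∀ i, ξ (β i, a' i) ≠ 0 := fun i e =>
    h.transcendental i (by simpa [e] using isAlgebraic_zero)
  have h1 : ∏ b, ξ (b, ε b) ^ D ∈ bm F ξ fun _ => D := by
    obtain ⟨μ, hμ⟩ := nev_one (ξ := ξ) ε fun _ => D
    exact hμ ▸ nev_mn μ
  obtain ⟨P, hP⟩ : ∃ P, P = (∏ i, ξ (β i, a' i) ^ m) * ∏ b, ξ (b, ε b) ^ D := ⟨_, rfl⟩
  have h2 : P ≠ 0 := hP ▸ mul_ne_zero (prod_ne_zero_iff.2 fun i _ => pow_ne_zero _ (h0 i))
    (prod_ne_zero_iff.2 fun b _ => pow_ne_zero _ (hε b))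
  have h3 := (((MvPolynomial.basisMonomials (Fin n) F).linearIndependent.comp
    (fun k : Fin n → Fin (m + 1) => Finsupp.equivFunOnFinite.symm fun i => (k i : ℕ))
    fun k k' e => funext fun i => Fin.ext (congrFun (Equiv.injective _ e) i)).map'
    (MvPolynomial.aeval fun i => ξ (β i, a i) / ξ (β i, a' i)).toLinearMap
    (LinearMap.ker_eq_bot.2 h)).map' (LinearMap.mulRight F P)
    (LinearMap.ker_eq_bot.2 (mul_left_injective₀ h2))
  have := big_fin (F := F) (ξ := ξ) fun b => ∑ i, m * (Pi.single (β i) 1 : Fin R → ℕ) b + D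
  have h4 : ∀ k : Fin n → Fin (m + 1), (∏ i, (ξ (β i, a i) / ξ (β i, a' i)) ^ (k i : ℕ)) * P ∈
      bm F ξ fun b => ∑ i, m * (Pi.single (β i) 1 : Fin R → ℕ) b + D := fun k => by
    rw [hP, ← mul_assoc, ← prod_mul_distrib]
    refine nev_mul (nev_prod _ fun i => ?_) h1
    obtain ⟨l, hl⟩ := Nat.exists_eq_add_of_le (Nat.lt_succ_iff.1 (k i).2)
    have h5 := nev_mul (nev_pow (big_one (F := F) (ξ := ξ) (β i) (a i)) (k i))
      (nev_pow (big_one (F := F) (ξ := ξ) (β i) (a' i)) l)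
    simp only [← add_mul, ← hl] at h5
    rwa [div_pow, ← congrArg (ξ (β i, a' i) ^ ·) hl.symm, pow_add, ← mul_assoc,
      div_mul_cancel₀ _ (pow_ne_zero _ (h0 i))]
  have h6 : LinearIndependent F fun k => (⟨_, h4 k⟩ :
      bm F ξ fun b => ∑ i, m * (Pi.single (β i) 1 : Fin R → ℕ) b + D) := by
    refine LinearIndependent.of_comp (Submodule.subtype _) ?_
    simpa [Function.comp_def, MvPolynomial.aeval_monomial, Finsupp.prod_fintype] using h3
  simpa using h6.fintype_card_le_finrank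

theorem big (ξ1 : ∀ b, ∃ a, ξ (b, a) ≠ 0) {n D : ℕ} (hn : Algebra.trdeg F K = n) (n0 : 0 < n) {T : Type}
    [Fintype T] {κ : T → Fin R → ℕ} (hκ : ∀ τ, ∑ b, κ τ b ≤ n)
    (hh : Sw κ D fun Y => finrank F (bm F ξ Y)) (d : Fin R → ℕ)
    (hb : Algebra.IsAlgebraic
      (IntermediateField.adjoin F {z | ∃ b a a', d b ≠ 0 ∧ z = ξ (b, a) / ξ (b, a')}) K) :
    ∃ τ, ∑ b, κ τ b = n ∧ ∀ b, d b = 0 → κ τ b = 0 := by
  classical
  rw [IntermediateField.isAlgebraic_adjoin_iff_top] at hb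
  obtain ⟨t, t1, t2⟩ := exists_isTranscendenceBasis_subset (R := F)
    {z | ∃ b a a', d b ≠ 0 ∧ z = ξ (b, a) / ξ (b, a')}
  obtain ⟨e⟩ := Cardinal.mk_eq_nat_iff.1 (t2.cardinalMk_eq_trdeg.trans hn)
  choose β a a' h1 h2 using fun i => t1 (e.symm i).2
  have h3 : AlgebraicIndependent F fun i => ξ (β i, a i) / ξ (β i, a' i) := by
    simp only [← h2]
    exact t2.1.comp e.symm e.symm.injective
  by_contra hc
  push Not at hc
  obtain ⟨m, hm⟩ : ∃ m, m = Fintype.card T * (D + n) ^ n := ⟨_, rfl⟩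
  have h4 := (big_low ξ1 h3 m D).trans (hh _ fun b => Nat.le_add_left _ _).2
  have h5 : ∀ τ, ∏ b, (∑ i, m * (Pi.single (β i) 1 : Fin R → ℕ) b + D + κ τ b).choose (κ τ b) ≤
      (D + n) ^ n * (m + 1) ^ (n - 1) := fun τ => by
    have k1 : ∀ b, κ τ b ≤ n := fun b =>
      (single_le_sum (fun _ _ => Nat.zero_le _) (mem_univ b)).trans (hκ τ)
    have k2 : ∑ b, (if d b = 0 then 0 else κ τ b) ≤ n - 1 := by
      have k3 : ∀ b ∈ univ, (if d b = 0 then 0 else κ τ b) ≤ κ τ b := fun b _ => by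
        split_ifs <;> omega
      rcases (hκ τ).eq_or_lt with k | k
      · obtain ⟨b, k4, k5⟩ := hc τ k
        have := sum_lt_sum k3 ⟨b, mem_univ b, by rw [if_pos k4]; omega⟩
        omega
      · have := sum_le_sum k3
        omega
    refine le_trans (prod_le_prod' fun b _ => ?_) ((prod_mul_distrib (f := fun b => (D + n) ^ κ τ b)
      (g := fun b => (m + 1) ^ if d b = 0 then 0 else κ τ b)).trans_le ?_)
    · refine (Nat.choose_le_pow _ _).trans ?_
      have k3 := k1 b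
      split_ifs with k
      · rw [sum_eq_zero fun i _ => by
          rw [Pi.single_eq_of_ne (fun e' : b = β i => h1 i (e' ▸ k)), mul_zero], pow_zero, mul_one]
        exact Nat.pow_le_pow_left (by omega) _
      · rw [← mul_pow]
        refine Nat.pow_le_pow_left ?_ _
        have k4 : ∑ i, m * (Pi.single (β i) 1 : Fin R → ℕ) b ≤ n * m := by
          refine (sum_le_card_nsmul _ _ m fun i _ => ?_).trans (by simp)
          rw [Pi.single_apply]
          split_ifs <;> omega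
        nlinarith
    · rw [prod_pow_eq_pow_sum, prod_pow_eq_pow_sum]
      exact Nat.mul_le_mul (Nat.pow_le_pow_right (by omega) (hκ τ))
        (Nat.pow_le_pow_right (by omega) k2)
  have h6 := h4.trans (sum_le_card_nsmul _ _ _ fun τ _ => h5 τ)
  rw [card_univ, smul_eq_mul, ← mul_assoc, ← hm] at h6
  obtain ⟨n, rfl⟩ := Nat.exists_eq_add_of_lt n0
  rw [pow_succ', Nat.add_sub_cancel] at h6
  have := Nat.le_of_mul_le_mul_right h6 (by positivity)
  omega

end Pool.Agent.Lib.MP_651af7_nt.Am3
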