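import Pool.Agent.Lib.MP_651af7_nt.Am3.Lim

/-! The two cases. -/

namespace Pool.Agent.Lib.MP_651af7_nt.Am3

open Finset Am2

variable {R q n : ℕ} {T : Type} [Fintype T] {c : T → ℝ} {κ : T → Fin R → ℕ}

theorem cas_fin {d : Fin q → Fin R → ℝ} {x : Fin R → ℝ} {t l W : Fin q → ℝ} {j₁ : Fin q}
    {G K : ℝ} (l0 : ∀ j, 0 ≤ l j) (l1 : ∀ j, l j = 0 ∨ (0 < t j ∧ l j ≤ W j)) (g0 : 0 < G)
    (g1 : G ≤ l j₁) (g2 : ∀ b, x b + G * d j₁ b < ∑ j, l j * d j b + G / K) :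
    ∃ (β : Fin q → ℝ) (G : ℝ), (∀ j, 0 ≤ β j) ∧ (∀ j, β j = 0 ∨ (0 < t j ∧ β j < W j)) ∧ 0 < G ∧
      G ≤ β j₁ ∧ ∀ b, x b + G * d j₁ b < ∑ j, β j * d j b + G / K := by
  have h1 : ∀ᶠ θ in nhds (1 : ℝ), 0 < θ ∧
      ∀ b, x b + θ * G * d j₁ b < ∑ j, θ * l j * d j b + θ * G / K :=
    (lt_mem_nhds one_pos).and (Filter.eventually_all.2 fun b =>
      ContinuousAt.eventually_lt (by fun_prop) (by fun_prop) (by simpa using g2 b))
  obtain ⟨θ, ⟨h2, h3⟩, h4⟩ := ((h1.filter_mono (nhdsWithin_le_nhds (s := Set.Iio 1))).and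
    self_mem_nhdsWithin).exists
  refine ⟨fun j => θ * l j, θ * G, fun j => mul_nonneg h2.le (l0 j), fun j => ?_, mul_pos h2 g0,
    mul_le_mul_of_nonneg_left g1 h2.le, h3⟩
  rcases (l0 j).eq_or_lt with h | h
  · exact .inl (mul_eq_zero_of_right _ h.symm)
  · exact .inr (((l1 j).resolve_left h.ne').imp_right fun h5 =>
      (mul_lt_of_lt_one_left h h4).trans_le h5)

theorem cas_lw {x d : Fin R → ℝ} {t : ℝ} (ht : 0 ≤ t) (hd : 0 ≤ Hh c κ d) (hx : 0 < Hh c κ x) :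
    t / (t * (∑ b, gr c κ x b * d b) / Hh c κ x + 1) ≤ Lw c κ n x d t :=
  le_add_of_nonneg_right (by positivity)

theorem cas_dot {a : Fin q → ℝ} {d : Fin q → Fin R → ℝ} {x : Fin R → ℝ}
    (hx : ∀ b, x b = ∑ j, a j * d j b) (γ : Fin R → ℝ) :
    ∑ j, a j * ∑ b, γ b * d j b = ∑ b, γ b * x b := by
  simp only [hx, mul_sum, mul_left_comm (γ _)]
  exact sum_comm

theorem cas [Nonempty T] (hc : ∀ τ, 0 < c τ) (hκ : ∀ τ, ∑ b, κ τ b = n) (hn : 0 < n)
    {d : Fin q → Fin R → ℝ} (hd : ∀ j b, 0 ≤ d j b) (hb : ∀ j, 0 < Hh c κ (d j))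
    {ρ : Fin n → Fin q → ℝ} (hρ : LinearIndependent ℝ ρ) (h2 : n + 2 ≤ q)
    (hi : ∀ i x, ∑ b, gr c κ x b * ∑ l, ρ i l * d l b = 0) {K : ℝ} (hK : 0 < K) :
    ∃ (x : Fin R → ℝ) (t β : Fin q → ℝ) (j₁ : Fin q) (G : ℝ), (∀ b, 0 ≤ x b) ∧ 0 < Hh c κ x ∧
      (∀ j (γ : Fin R → ℝ), (∀ b, 0 ≤ γ b) → (∀ i, ∑ b, γ b * ∑ l, ρ i l * d l b = 0) →
        t j * ∑ b, γ b * d j b ≤ ∑ b, γ b * x b) ∧ (∀ j, 0 ≤ β j) ∧
      (∀ j, β j = 0 ∨ (0 < t j ∧ β j < Lw c κ n x (d j) (t j))) ∧ 0 < G ∧ G ≤ β j₁ ∧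
      ∀ b, x b + G * d j₁ b < ∑ j, β j * d j b + G / K := by
  classical
  obtain ⟨a, x, a0, a1, hx, h⟩ := lim3 hc hκ hn hd hb hρ h2 hi
  have n0 : (0 : ℝ) < n := Nat.cast_pos.2 hn
  have x1 : ∀ j b, a j * d j b ≤ x b := fun j b => hx b ▸
    single_le_sum (f := fun j => a j * d j b) (fun j _ => mul_nonneg (a0 j) (hd j b)) (mem_univ j)
  obtain ⟨j₁, -, hj⟩ := exists_ne_zero_of_sum_ne_zero (a1 ▸ one_ne_zero : ∑ j, a j ≠ 0)
  replace hj := (a0 j₁).lt_of_ne' hj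
  have x0 : ∀ b, 0 ≤ x b := fun b => (mul_nonneg (a0 j₁) (hd j₁ b)).trans (x1 j₁ b)
  have H0 : 0 < Hh c κ x := lt_of_lt_of_le (by rw [Hp_hom hκ]; exact mul_pos (pow_pos hj _) (hb _))
    (Hp_mono hc (x := a j₁ • d j₁) (fun b => mul_nonneg (a0 j₁) (hd j₁ b)) (x1 j₁))
  obtain ⟨g, hg⟩ : ∃ g : Fin q → ℝ, ∀ j, ∑ b, gr c κ x b * d j b = g j := ⟨_, fun _ => rfl⟩
  have g1 : ∀ j, 0 < Hh c κ x - a j * g j := fun j => by
    have h1 := h j _ (gr_nonneg hc x0) fun i => hi i x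
    rw [Hp_euler hκ, hg, ← mul_assoc] at h1
    have h3 := le_of_mul_le_mul_right h1 H0
    by_contra! h4
    nlinarith
  by_cases hA : ∃ j, 0 < a j ∧ (n + 1) * (a j * g j) ≠ n * Hh c κ x
  · obtain ⟨j₂, k1, k2⟩ := hA
    obtain ⟨t, ht⟩ : ∃ t : Fin q → ℝ, ∀ j, t j = a j * Hh c κ x / (Hh c κ x - a j * g j) :=
      ⟨_, fun _ => rfl⟩
    have t0 : ∀ j, 0 < a j → 0 < t j := fun j hj => ht j ▸ div_pos (mul_pos hj H0) (g1 j)
    have t1 : ∀ j, t j / (t j * (∑ b, gr c κ x b * d j b) / Hh c κ x + 1) = a j := fun j => by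
      have := (g1 j).ne'
      rw [hg, ht, show a j * Hh c κ x / (Hh c κ x - a j * g j) * g j / Hh c κ x + 1 =
        Hh c κ x / (Hh c κ x - a j * g j) by field_simp; ring]
      field_simp
    have t2 : a j₂ < Lw c κ n x (d j₂) (t j₂) := by
      have h1 : (n : ℝ) - t j₂ * (∑ b, gr c κ x b * d j₂ b) / Hh c κ x ≠ 0 := fun e => k2 (by
        have := (g1 j₂).ne'
        rw [hg, ht, sub_eq_zero] at e
        field_simp at e
        linarith)
      have h3 : t j₂ * (∑ b, gr c κ x b * d j₂ b) / Hh c κ x + 1 ≠ 0 := fun e => k1.ne' (by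
        rw [← t1, e, div_zero])
      have := t0 j₂ k1
      have := hb j₂
      rw [Lw, t1]
      exact lt_add_of_pos_right _ (by positivity)
    obtain ⟨β, G, b⟩ := cas_fin (d := d) (x := x) (t := t) (K := K) (j₁ := j₂)
      (W := fun j => Lw c κ n x (d j) (t j)) (G := Lw c κ n x (d j₂) (t j₂) - a j₂)
      (l := fun j => a j + if j = j₂ then Lw c κ n x (d j₂) (t j₂) - a j₂ else 0)
      (fun j => by have := a0 j; split_ifs <;> linarith) (fun j => by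
        split_ifs with e
        · subst e
          exact .inr ⟨t0 j k1, by linarith⟩
        · rw [add_zero]
          exact (a0 j).eq_or_lt.imp Eq.symm fun h1 =>
            ⟨t0 j h1, (t1 j).ge.trans (cas_lw (t0 j h1).le (hb j).le H0)⟩)
      (sub_pos.2 t2) (by rw [if_pos rfl]; linarith) fun b => by
        simp only [add_mul, sum_add_distrib, ← hx, ite_mul, zero_mul, sum_ite_eq', mem_univ,
          if_true]
        exact lt_add_of_pos_right _ (div_pos (sub_pos.2 t2) hK)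
    refine ⟨x, t, β, j₂, G, x0, H0, fun j γ c1 c2 => ?_, b⟩
    rw [ht, div_mul_eq_mul_div, div_le_iff₀ (g1 j), mul_right_comm, mul_comm _ (_ - _), ← hg]
    exact h j γ c1 c2
  push Not at hA
  have s1 : ∀ f : Fin q → ℝ, ∑ j ∈ univ.filter fun j => 0 < a j, a j * f j = ∑ j, a j * f j :=
    fun f => sum_filter_of_ne fun j _ e => (a0 j).lt_of_ne' (left_ne_zero_of_mul e)
  have s2 : ((univ.filter fun j => 0 < a j).card : ℝ) = n + 1 := by
    have h1 := cas_dot hx (gr c κ x)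
    simp only [hg, Hp_euler hκ, ← s1] at h1
    have h3 := sum_congr rfl fun j (hj : j ∈ univ.filter fun j => 0 < a j) =>
      hA j (mem_filter.1 hj).2
    rw [← mul_sum, h1, sum_const, nsmul_eq_mul] at h3
    exact (mul_right_cancel₀ (mul_pos n0 H0).ne' h3).symm
  obtain ⟨j₀, -, k0⟩ := exists_mem_notMem_of_card_lt_card (s := univ.filter fun j => 0 < a j)
    (t := univ) (by rw [card_univ, Fintype.card_fin]; norm_cast at s2; omega)
  replace k0 : a j₀ = 0 := (a0 j₀).eq_or_lt.resolve_right (by simpa using k0) |>.symm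
  have s3 : ∀ γ : Fin R → ℝ, (∀ b, 0 ≤ γ b) → (∀ i, ∑ b, γ b * ∑ l, ρ i l * d l b = 0) →
      ∀ j, 0 < a j → (n + 1) * (a j * ∑ b, γ b * d j b) = ∑ b, γ b * x b := fun γ c1 c2 j hj =>
    (sum_eq_sum_iff_of_le (s := univ.filter fun j => 0 < a j)
      (f := fun j => (n + 1) * (a j * ∑ b, γ b * d j b)) (g := fun _ => ∑ b, γ b * x b) fun j hj => by
      have h1 := mul_le_mul_of_nonneg_left (h j γ c1 c2) (show (0 : ℝ) ≤ n + 1 by positivity)
      rw [hg, ← mul_assoc _ (_ - _), mul_sub, hA j (mem_filter.1 hj).2] at h1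
      exact le_of_mul_le_mul_right (by linarith) H0).1
      (by rw [← mul_sum, s1, cas_dot hx, sum_const, nsmul_eq_mul, s2]) j (by simpa using hj)
  have E0 : 0 < 1 + ∑ b, d j₀ b := add_pos_of_pos_of_nonneg one_pos (sum_nonneg fun b _ => hd _ b)
  obtain ⟨s, s0, hs⟩ : ∃ s : ℝ, 0 < s ∧ s * (K * (n + 1) * (1 + ∑ b, d j₀ b)) = a j₁ :=
    ⟨_, by positivity, div_mul_cancel₀ _ (by positivity)⟩
  obtain ⟨y, hy⟩ : ∃ y, y = x + s • d j₀ := ⟨_, rfl⟩
  have y1 : ∀ b, y b = x b + s * d j₀ b := fun b => by rw [hy]; rfl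
  have y2 : ∀ b, x b ≤ y b := fun b => y1 b ▸ le_add_of_nonneg_right (mul_nonneg s0.le (hd _ b))
  have y0 : ∀ b, 0 ≤ y b := fun b => (x0 b).trans (y2 b)
  have H1 : 0 < Hh c κ y := H0.trans_le (Hp_mono hc x0 y2)
  have y3 : ∀ γ : Fin R → ℝ, ∑ b, γ b * y b = ∑ b, γ b * x b + s * ∑ b, γ b * d j₀ b := fun γ => by
    simp only [y1, mul_add, sum_add_distrib, mul_sum, mul_left_comm]
  obtain ⟨u, hu⟩ : ∃ u, s * (∑ b, gr c κ y b * d j₀ b) / Hh c κ y = u := ⟨_, rfl⟩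
  have u0 : 0 < u := by
    have h1 := Hp_euler (c := c) hκ (s • d j₀)
    have h3 := sum_le_sum fun b (_ : b ∈ univ) => mul_le_mul_of_nonneg_right
      (gr_mono hc (κ := κ) (x := s • d j₀) (y := y) (fun b => mul_nonneg s0.le (hd _ b))
        (fun b => y1 b ▸ le_add_of_nonneg_left (x0 b)) b) (mul_nonneg s0.le (hd j₀ b))
    simp only [mul_left_comm _ s, ← mul_sum (a := s)] at h3
    simp only [Hp_hom hκ, Pi.smul_apply, smul_eq_mul, mul_left_comm _ s, ← mul_sum (a := s)] at h1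
    have := hb j₀
    exact hu ▸ div_pos (lt_of_lt_of_le (by rw [h1]; positivity) h3) H1
  have u1 : ∑ b, gr c κ y b * x b = (n - u) * Hh c κ y := by
    rw [sub_mul, ← hu, div_mul_cancel₀ _ H1.ne', ← Hp_euler hκ, y3, add_sub_cancel_right]
  have u2 : 0 ≤ n - u := nonneg_of_mul_nonneg_left
    (u1 ▸ sum_nonneg fun b _ => mul_nonneg (gr_nonneg hc y0 b) (x0 b)) H1
  have j1 : j₁ ≠ j₀ := fun e => hj.ne' (e ▸ k0)
  obtain ⟨β, G, b⟩ := cas_fin (d := d) (x := y) (K := K) (j₁ := j₁)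
    (t := fun j => if j = j₀ then s else (n + 1) * a j)
    (W := fun j => Lw c κ n y (d j) (if j = j₀ then s else (n + 1) * a j))
    (G := a j₁ * (u / (n + 1)))
    (l := fun j => a j * (1 + u / (n + 1)) + if j = j₀ then s / (u + 1) else 0)
    (fun j => by have := a0 j; split_ifs <;> positivity) (fun j => by
      split_ifs with e
      · subst e
        rw [k0, zero_mul, zero_add, ← hu]
        exact .inr ⟨s0, cas_lw s0.le (hb j).le H1⟩
      · rw [add_zero]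
        refine (a0 j).eq_or_lt.imp (fun h1 => by rw [← h1, zero_mul]) fun h1 =>
          ⟨by positivity, le_trans ?_ (cas_lw (by positivity) (hb j).le H1)⟩
        rw [mul_assoc, s3 _ (gr_nonneg hc y0) (fun i => hi i y) j h1, u1,
          mul_div_cancel_right₀ _ H1.ne', le_div_iff₀ (by positivity), mul_assoc, mul_comm _ (a j)]
        refine mul_le_mul_of_nonneg_left ?_ h1.le
        have h3 : u / (n + 1) * (n + 1) = u := div_mul_cancel₀ _ (by positivity)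
        have h4 : 0 ≤ u / (n + 1) * u := by positivity
        linarith)
    (by positivity) (by rw [if_neg j1]; nlinarith) fun b => by
      simp only [add_mul, sum_add_distrib, ite_mul, zero_mul, sum_ite_eq', mem_univ, if_true,
        mul_right_comm (a _), ← sum_mul, ← hx, y1]
      have h1 := mul_le_mul_of_nonneg_right (x1 j₁ b) (show 0 ≤ u / (n + 1) by positivity)
      have h3 : a j₁ * (u / (n + 1)) / K = s * u * (1 + ∑ b, d j₀ b) := by
        rw [← hs]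
        field_simp
      have h4 : s * (1 - u) ≤ s / (u + 1) := by
        rw [le_div_iff₀ (by positivity)]
        nlinarith [mul_pos s0 (mul_pos u0 u0)]
      have h5 := mul_le_mul_of_nonneg_right h4 (hd j₀ b)
      have h6 := mul_le_mul_of_nonneg_left (single_le_sum (fun b _ => hd j₀ b) (mem_univ b))
        (mul_pos s0 u0).le
      have h7 := mul_pos s0 u0
      rw [h3]
      linarith
  refine ⟨y, _, β, j₁, G, y0, H1, fun j γ c1 c2 => ?_, b⟩
  have h1 : 0 ≤ ∑ b, γ b * x b := sum_nonneg fun b _ => mul_nonneg (c1 b) (x0 b)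
  have h3 : 0 ≤ s * ∑ b, γ b * d j₀ b :=
    mul_nonneg s0.le (sum_nonneg fun b _ => mul_nonneg (c1 b) (hd _ b))
  rw [y3]
  split_ifs with e
  · subst e
    linarith
  · rcases (a0 j).eq_or_lt with h4 | h4
    · rw [← h4]
      linarith
    · rw [mul_assoc, s3 γ c1 c2 j h4]
      linarith

end Pool.Agent.Lib.MP_651af7_nt.Am3
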