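import Pool.Agent.Lib.MP_651af7_nt.Am3.Vol

/-! The inequality of Jensen with a remainder. -/

namespace Pool.Agent.Lib.MP_651af7_nt.Am3

open Finset Am2 Polynomial

variable {R n : ℕ} {T : Type} [Fintype T] {c : T → ℝ} {κ : T → Fin R → ℕ}

theorem jen_coeff {ι : Type} (s : Finset ι) (f : ι → ℝ[X]) (k : ι → ℕ)
    (h : ∀ i, (f i).natDegree ≤ k i) :
    (∏ i ∈ s, f i).coeff (∑ i ∈ s, k i) = ∏ i ∈ s, (f i).coeff (k i) := by
  classical
  induction s using Finset.induction_on with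
  | empty => simp
  | insert a s ha ih =>
    rw [prod_insert ha, sum_insert ha, prod_insert ha, coeff_mul_add_eq_of_natDegree_le (h a)
      ((natDegree_prod_le _ _).trans (sum_le_sum fun i _ => h i)), ih]

theorem jen_poly (hc : ∀ τ, 0 < c τ) (hκ : ∀ τ, ∑ b, κ τ b = n) {w d : Fin R → ℝ}
    (hd : ∀ b, 0 ≤ d b) (hw : ∀ b, 0 ≤ w b) : ∃ p : ℝ[X], (∀ u, p.eval u = Hh c κ (w + u • d)) ∧
      p.natDegree < n + 1 ∧ (∀ k, 0 ≤ p.coeff k) ∧ p.coeff n = Hh c κ d := by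
  have d0 : ∀ b, (C (d b) * X + C (w b)).natDegree ≤ 1 := fun b => natDegree_linear_le
  have d1 : ∀ τ b, ((C (d b) * X + C (w b)) ^ κ τ b).natDegree ≤ κ τ b := fun τ b =>
    natDegree_pow_le.trans ((Nat.mul_le_mul_left _ (d0 b)).trans_eq (mul_one _))
  have q1 : ∀ f g : ℝ[X], (∀ k, 0 ≤ f.coeff k) → (∀ k, 0 ≤ g.coeff k) →
      ∀ k, 0 ≤ (f * g).coeff k := fun f g hf hg k => by
    rw [coeff_mul]
    exact sum_nonneg fun _ _ => mul_nonneg (hf _) (hg _)
  have q0 : ∀ k, 0 ≤ (1 : ℝ[X]).coeff k := fun k => by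
    rw [coeff_one]
    split_ifs <;> norm_num
  refine ⟨∑ τ, C (c τ) * ∏ b, (C (d b) * X + C (w b)) ^ κ τ b, fun u => ?_,
    Nat.lt_succ_of_le (natDegree_sum_le_of_forall_le _ _ fun τ _ => (natDegree_C_mul_le _ _).trans
      ((natDegree_prod_le _ _).trans ((sum_le_sum fun b _ => d1 τ b).trans (hκ τ).le))),
    fun k => ?_, ?_⟩
  · simp only [Hh, eval_finsetSum, eval_prod, eval_mul, eval_C, eval_pow, eval_add, eval_X,
      Pi.add_apply, Pi.smul_apply, smul_eq_mul, add_comm (w _), mul_comm u]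
  · rw [finsetSum_coeff]
    refine sum_nonneg fun τ _ => ?_
    rw [coeff_C_mul]
    refine mul_nonneg (hc τ).le (prod_induction _ (fun f : ℝ[X] => ∀ k, 0 ≤ f.coeff k) q1 q0
      (fun b _ => ?_) k)
    rw [← card_range (κ τ b), ← prod_const]
    refine prod_induction _ (fun f : ℝ[X] => ∀ k, 0 ≤ f.coeff k) q1 q0 fun _ _ k => ?_
    have := hd b
    have := hw b
    rw [coeff_add, coeff_C_mul, coeff_X, coeff_C]
    split_ifs <;> positivity
  · rw [finsetSum_coeff]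
    refine sum_congr rfl fun τ _ => ?_
    rw [coeff_C_mul, ← hκ τ, jen_coeff _ _ _ (d1 τ)]
    refine congrArg _ (prod_congr rfl fun b _ => ?_)
    have := coeff_pow_of_natDegree_le (m := κ τ b) (d0 b)
    simpa using this

theorem jen (hc : ∀ τ, 0 < c τ) (hκ : ∀ τ, ∑ b, κ τ b = n) {z d : Fin R → ℝ} {t : ℝ}
    (ht : 0 ≤ t) (hd : ∀ b, 0 ≤ d b) (hz : ∀ b, t * d b ≤ z b) (h0 : 0 < Hh c κ z) :
    Lw c κ n z d t * Hh c κ z ≤ ∫ s in (0 : ℝ)..t, Hh c κ (z - s • d) := by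
  obtain ⟨p, p1, p2, p3, p4⟩ := jen_poly hc hκ hd (w := z - t • d) fun b => sub_nonneg.2 (hz b)
  have z0 : ∀ b, 0 ≤ z b := fun b => (mul_nonneg ht (hd b)).trans (hz b)
  obtain ⟨μ, hμ⟩ : ∃ μ, μ = t * (∑ b, gr c κ z b * d b) / Hh c κ z := ⟨_, rfl⟩
  have m0 : 0 ≤ μ := hμ ▸ div_nonneg (mul_nonneg ht
    (sum_nonneg fun b _ => mul_nonneg (gr_nonneg hc z0 b) (hd b))) h0.le
  have e0 : ∀ u, p.eval u = ∑ k ∈ range (n + 1), p.coeff k * u ^ k := eval_eq_sum_range' p2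
  have e1 : ∑ k ∈ range (n + 1), p.coeff k * t ^ k = Hh c κ z := by
    rw [← e0, p1, sub_add_cancel]
  have e2 : ∑ k ∈ range (n + 1), k * (p.coeff k * t ^ k) = μ * Hh c κ z := by
    have h1 := Hp_der c κ (z - t • d) d t
    simp only [← p1, sub_add_cancel, e0] at h1
    have h2 := HasDerivAt.fun_sum fun k (_ : k ∈ range (n + 1)) =>
      (hasDerivAt_pow k t).const_mul (p.coeff k)
    rw [hμ, div_mul_cancel₀ _ h0.ne', h1.unique h2, mul_sum]
    refine sum_congr rfl fun k _ => ?_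
    rcases k with _ | k
    · simp
    · rw [Nat.add_sub_cancel, pow_succ]
      ring
  have e3 : ∫ s in (0 : ℝ)..t, Hh c κ (z - s • d) =
      ∑ k ∈ range (n + 1), p.coeff k * (t ^ (k + 1) / (k + 1)) := by
    have h1 : ∀ s : ℝ, Hh c κ (z - s • d) = p.eval (t - s) := fun s => by
      rw [p1, sub_smul, sub_add_sub_cancel]
    simp only [h1]
    rw [intervalIntegral.integral_comp_sub_left (fun u => p.eval u), sub_self, sub_zero]
    simp only [e0]
    rw [intervalIntegral.integral_finsetSum fun k _ => Continuous.intervalIntegrable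
      (by fun_prop) _ _]
    simp
  have e4 : Lw c κ n z d t * Hh c κ z = ∑ k ∈ range (n + 1), (p.coeff k * t ^ k * t *
      (1 / (μ + 1) - (k - μ) / (μ + 1) ^ 2) + if k = n then p.coeff k * t ^ k * t *
        ((k - μ) ^ 2 / ((μ + 1) ^ 2 * (k + 1))) else 0) := by
    have h1 : ∀ k : ℕ, p.coeff k * t ^ k * t * (1 / (μ + 1) - (k - μ) / (μ + 1) ^ 2) =
        t * (1 / (μ + 1) + μ / (μ + 1) ^ 2) * (p.coeff k * t ^ k) -
          t / (μ + 1) ^ 2 * (k * (p.coeff k * t ^ k)) := fun k => by ring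
    rw [sum_add_distrib, sum_ite_eq', if_pos (self_mem_range_succ n), p4, Lw, ← hμ]
    simp only [h1, sum_sub_distrib, ← mul_sum, e1, e2]
    field_simp
    ring
  rw [e3, e4]
  refine sum_le_sum fun k _ => ?_
  have h1 : 0 ≤ p.coeff k * t ^ k * t * ((k - μ) ^ 2 / ((μ + 1) ^ 2 * (k + 1))) := by
    have := p3 k
    positivity
  have h2 : p.coeff k * (t ^ (k + 1) / (k + 1)) = p.coeff k * t ^ k * t *
      (1 / (μ + 1) - (k - μ) / (μ + 1) ^ 2) +
      p.coeff k * t ^ k * t * ((k - μ) ^ 2 / ((μ + 1) ^ 2 * (k + 1))) := by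
    field_simp
    ring
  rw [h2]
  split_ifs <;> linarith

end Pool.Agent.Lib.MP_651af7_nt.Am3
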