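import Pool.Agent.Lib.MP_651af7_nt.Am3.Cas
import Pool.Agent.Lib.MP_651af7_nt.Am3.Jen

/-! A small ample shift. -/

namespace Pool.Agent.Lib.MP_651af7_nt.Am3

open Finset Am2

variable {R q n : ℕ} {T : Type} [Fintype T] [Nonempty T] {c : T → ℝ} {κ : T → Fin R → ℕ}

omit [Nonempty T] in
theorem Eta_cont : Continuous fun x : Fin R → ℝ => Hh c κ x := by
  unfold Hh
  fun_prop

omit [Nonempty T] in
theorem Eta_inv {v : Fin n → Fin R → ℝ}
    (hi : ∀ i (w : Fin R → ℝ) (s : ℝ), Hh c κ (w + s • v i) = Hh c κ w) (μ : Fin n → ℝ)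
    (w : Fin R → ℝ) : Hh c κ (w + fun b => ∑ i, μ i * v i b) = Hh c κ w := by
  have key : ∀ s : Finset (Fin n), Hh c κ (w + ∑ i ∈ s, μ i • v i) = Hh c κ w := by
    intro s
    induction s using Finset.induction with
    | empty => simp
    | insert a s ha ih => rw [sum_insert ha, add_comm (μ a • v a), ← add_assoc, hi, ih]
  have e : (fun b => ∑ i, μ i * v i b) = ∑ i, μ i • v i := by
    funext b
    simp [Finset.sum_apply]
  rw [e, key]

omit [Nonempty T] in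
theorem Eta_Lw {u : Fin R → ℝ} (hu : ∀ w, Hh c κ (w + u) = Hh c κ w) (x d : Fin R → ℝ) (t : ℝ) :
    Lw c κ n (x + u) d t = Lw c κ n x d t := by
  have h1 := Hp_der c κ (x + u) d 0
  have h2 := Hp_der c κ x d 0
  have e : (fun s : ℝ => Hh c κ (x + u + s • d)) = fun s : ℝ => Hh c κ (x + s • d) := by
    funext s
    rw [add_right_comm, hu]
  rw [e] at h1
  have h3 := h1.unique h2
  simp only [zero_smul, add_zero] at h3
  unfold Lw
  rw [h3, hu]

omit [Nonempty T] in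
theorem Eta_den (hc : ∀ τ, 0 < c τ) {x d : Fin R → ℝ} {t : ℝ} (hx : ∀ b, 0 ≤ x b)
    (hd : ∀ b, 0 ≤ d b) (ht : 0 ≤ t) : 0 < t * (∑ b, gr c κ x b * d b) / Hh c κ x + 1 :=
  add_pos_of_nonneg_of_pos (div_nonneg (mul_nonneg ht
    (sum_nonneg fun b _ => mul_nonneg (gr_nonneg hc hx b) (hd b))) (Hp_nonneg hc hx)) one_pos

omit [Nonempty T] in
theorem Eta_pos (hc : ∀ τ, 0 < c τ) {x d : Fin R → ℝ} {t : ℝ} (hx : ∀ b, 0 ≤ x b)
    (hd : ∀ b, 0 ≤ d b) (ht : 0 < t) : 0 < Lw c κ n x d t := by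
  have h1 := Eta_den (κ := κ) hc hx hd ht.le
  have h2 := Hp_nonneg (κ := κ) hc hx
  have h3 := Hp_nonneg (κ := κ) hc hd
  unfold Lw
  positivity

omit [Nonempty T] in
theorem Eta_at (hc : ∀ τ, 0 < c τ) {x d : Fin R → ℝ} {t : ℝ} (hx : ∀ b, 0 ≤ x b)
    (hd : ∀ b, 0 ≤ d b) (ht : 0 ≤ t) (h0 : 0 < Hh c κ x) :
    ContinuousAt (fun y => Lw c κ n y d t) x := by
  have h1 := Eta_den (κ := κ) hc hx hd ht
  have c1 : ContinuousAt (fun y => Hh c κ y) x := Eta_cont.continuousAt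
  have c2 : ContinuousAt (fun y => t * (∑ b, gr c κ y b * d b) / Hh c κ y) x :=
    (continuous_const.mul (continuous_finsetSum _ fun b _ =>
      (gr_cont c κ b).mul continuous_const)).continuousAt.div c1 h0.ne'
  have c3 := c2.add (continuousAt_const (y := (1 : ℝ)))
  unfold Lw
  refine (continuousAt_const.div c3 h1.ne').add (ContinuousAt.div (continuousAt_const.mul
    (ContinuousAt.div ((continuousAt_const.sub c2).pow 2) ((c3.pow 2).mul continuousAt_const) ?_))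
    c1 h0.ne')
  positivity

omit [Nonempty T] in
theorem Eta_one (hc : ∀ τ, 0 < c τ) (hκ : ∀ τ, ∑ b, κ τ b = n) {u x d : Fin R → ℝ} {t β : ℝ}
    (hu : ∀ w, Hh c κ (w + u) = Hh c κ w) (ht : 0 ≤ t) (hd : ∀ b, 0 ≤ d b)
    (hz : ∀ b, t * d b < x b + u b) (h0 : 0 < Hh c κ x) (hβ : β < Lw c κ n x d t) :
    β * Hh c κ x < ∫ s in (0 : ℝ)..t, Hh c κ ((fun b => x b + u b) - s • d) := by
  have h := jen hc hκ (z := x + u) ht hd (fun b => (hz b).le) (by rwa [hu])
  rw [Eta_Lw hu, hu] at h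
  exact (mul_lt_mul_of_pos_right hβ h0).trans_le h

theorem real3 (hc : ∀ τ, 0 < c τ) (hκ : ∀ τ, ∑ b, κ τ b = n) (hn : 0 < n)
    {d : Fin q → Fin R → ℝ} (hd : ∀ j b, 0 ≤ d j b) (hb : ∀ j, 0 < Hh c κ (d j))
    {ρ : Fin n → Fin q → ℝ} (hρ : LinearIndependent ℝ ρ) (h2 : n + 2 ≤ q)
    (hi : ∀ i (w : Fin R → ℝ) (s : ℝ), Hh c κ (w + s • fun b => ∑ l, ρ i l * d l b) = Hh c κ w)
    {K : ℝ} (hK : 0 < K) :
    ∃ (x : Fin R → ℝ) (μ : Fin q → Fin n → ℝ) (t β : Fin q → ℝ) (j₁ : Fin q) (G : ℝ),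
      (∀ b, 0 < x b) ∧ (∀ j, 0 < t j) ∧
      (∀ j b, t j * d j b < x b + ∑ i, μ j i * ∑ l, ρ i l * d l b) ∧ (∀ j, 0 ≤ β j) ∧
      (∀ j, β j * Hh c κ x < ∫ s in (0 : ℝ)..t j,
        Hh c κ ((fun b => x b + ∑ i, μ j i * ∑ l, ρ i l * d l b) - s • d j)) ∧
      0 < G ∧ G ≤ β j₁ ∧ ∀ b, x b + G * d j₁ b < ∑ j, β j * d j b + G / K := by
  obtain ⟨x, t, β, j₁, G, hx, h0, hγ, hβ, hL, hG, hG1, hlt⟩ :=
    cas hc hκ hn hd hb hρ h2 (fun i x => gr_orth (hi i) x) hK
  have cs : Continuous fun η : ℝ => fun b => x b + η := by fun_prop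
  have e1 : ∀ᶠ η in nhds (0 : ℝ), ∀ j,
      β j = 0 ∨ (0 < t j ∧ β j < Lw c κ n (fun b => x b + η) (d j) (t j)) := by
    refine Filter.eventually_all.2 fun j => ?_
    rcases hL j with h | h
    · exact Filter.Eventually.of_forall fun _ => Or.inl h
    · have c1 : ContinuousAt (fun η : ℝ => Lw c κ n (fun b => x b + η) (d j) (t j)) 0 :=
        ContinuousAt.comp_of_eq (Eta_at hc hx (hd j) h.1.le h0) cs.continuousAt (by simp)
      refine (c1.eventually (lt_mem_nhds (a := β j) (by simpa using h.2))).mono fun η hη => ?_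
      exact Or.inr ⟨h.1, hη⟩
  have e2 : ∀ᶠ η in nhds (0 : ℝ), ∀ b,
      x b + η + G * d j₁ b < ∑ j, β j * d j b + G / K := by
    refine Filter.eventually_all.2 fun b => ?_
    have c1 : ContinuousAt (fun η : ℝ => x b + η + G * d j₁ b) 0 := by fun_prop
    exact c1.eventually (gt_mem_nhds (by simpa using hlt b))
  obtain ⟨η, ⟨k1, k2⟩, hη⟩ := (((e1.and e2).filter_mono
    (nhdsWithin_le_nhds (s := Set.Ioi 0))).and self_mem_nhdsWithin).exists
  have hη : 0 < η := hη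
  have hy : ∀ b, 0 < x b + η := fun b => add_pos_of_nonneg_of_pos (hx b) hη
  have hy0 : 0 < Hh c κ fun b => x b + η :=
    h0.trans_le (Hp_mono hc hx fun b => le_add_of_nonneg_right hη.le)
  have key : ∀ j, ∃ (μ : Fin n → ℝ) (r : ℝ), 0 < r ∧
      (∀ b, r * d j b < x b + η + ∑ i, μ i * ∑ l, ρ i l * d l b) ∧
      β j < Lw c κ n (fun b => x b + η) (d j) r := by
    intro j
    rcases k1 j with h | h
    · have s0 : 0 ≤ ∑ b, d j b := sum_nonneg fun b _ => hd j b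
      have r0 : 0 < η / (1 + ∑ b, d j b) := by positivity
      refine ⟨0, η / (1 + ∑ b, d j b), r0, fun b => ?_, ?_⟩
      · have s1 : d j b ≤ ∑ b, d j b := single_le_sum (fun b _ => hd j b) (mem_univ b)
        have s2 : η / (1 + ∑ b, d j b) * d j b < η := by
          rw [div_mul_eq_mul_div, div_lt_iff₀ (by positivity)]
          exact mul_lt_mul_of_pos_left (by linarith) hη
        have := hx b
        simp only [Pi.zero_apply, zero_mul, sum_const_zero]
        linarith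
      · rw [h]
        exact Eta_pos hc (fun b => (hy b).le) (hd j) r0
    · obtain ⟨μ, hμ⟩ := lp (fun i b => ∑ l, ρ i l * d l b) (fun b => x b + η - t j * d j b)
        fun γ hs ho => by
          have a1 := hγ j γ hs.1 ho
          have a2 : ∑ b, γ b * (x b + η - t j * d j b) =
              ∑ b, γ b * x b + (∑ b, γ b) * η - t j * ∑ b, γ b * d j b := by
            simp only [sum_mul, mul_sum, ← sum_add_distrib, ← sum_sub_distrib]
            exact sum_congr rfl fun b _ => by ring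
          rw [a2, hs.2]
          linarith
      exact ⟨μ, t j, h.1, fun b => by linarith [hμ b], h.2⟩
  choose μ r hr1 hr2 hr3 using key
  exact ⟨fun b => x b + η, μ, r, β, j₁, G, hy, hr1, hr2, hβ, fun j =>
    Eta_one hc hκ (Eta_inv hi (μ j)) (hr1 j).le (hd j) (hr2 j) hy0 (hr3 j), hG, hG1, k2⟩

end Pool.Agent.Lib.MP_651af7_nt.Am3
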