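import Pool.Agent.Lib.MP_651af7_nt.Am3.Vol
import Pool.Agent.Lib.MP_651af7_nt.Am2.Lim

/-! The volume polynomial is invariant under the relations. -/

namespace Pool.Agent.Lib.MP_651af7_nt.Am3

open Finset Am Am2

variable {R : ℕ} {T : Type} [Fintype T]

theorem inv_ext (c : T → ℝ) (κ : T → Fin R → ℕ) (a a' : Fin R → ℝ)
    (h : ∀ (w : Fin R → ℕ) (m : ℕ),
      Hh c κ (fun b => w b + m * a b + 1) = Hh c κ fun b => w b + m * a' b + 1)
    (w : Fin R → ℝ) (s : ℝ) :
    Hh c κ (fun b => w b + s * a b + 1) = Hh c κ fun b => w b + s * a' b + 1 := by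
  let P : (Fin R → ℝ) → MvPolynomial (Option (Fin R)) ℝ := fun a => ∑ τ, .C (c τ) *
    ∏ b, (.X (some b) + .X none * .C (a b) + 1) ^ κ τ b
  have e : ∀ a y, MvPolynomial.eval y (P a) = Hh c κ fun b => y (some b) + y none * a b + 1 :=
    fun a y => by
      simp only [P, Hh, map_sum, map_mul, map_prod, map_pow, map_add, map_one, MvPolynomial.eval_C,
        MvPolynomial.eval_X]
  have h1 : P a = P a' := MvPolynomial.funext_set (fun _ => Set.range (Nat.cast : ℕ → ℝ))
    (fun _ => Set.infinite_range_of_injective Nat.cast_injective) fun y hy => by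
      choose z hz using fun i => hy i trivial
      simp only [e, ← hz]
      exact h _ _
  have h2 := e a fun o => o.elim s w
  rw [h1, e] at h2
  exact h2.symm

theorem inv_le {f g : ℕ → ℕ} {n e : ℕ} {a b : ℝ}
    (hf : Filter.Tendsto (fun L : ℕ => (f L : ℝ) / L ^ n) Filter.atTop (nhds a))
    (hg : Filter.Tendsto (fun L : ℕ => (g L : ℝ) / L ^ n) Filter.atTop (nhds b))
    (h : ∀ L, f L ≤ g (L + e)) : a ≤ b := by
  have h1 := (hg.comp (Filter.tendsto_add_atTop_nat e)).mul (lim_pow e (le_refl n))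
  rw [if_pos rfl, mul_one] at h1
  refine le_of_tendsto_of_tendsto hf h1 ?_
  filter_upwards [Filter.eventually_gt_atTop 0] with L hL
  rw [Function.comp, Nat.cast_add, div_mul_div_cancel₀ (by positivity)]
  exact div_le_div_of_nonneg_right (Nat.cast_le.2 (h L)) (by positivity)

theorem inv3 (κ : T → Fin R → ℕ) {n D : ℕ} (h0 : ∀ τ, ∑ b, κ τ b ≤ n)
    [Fintype {τ // ∑ b, κ τ b = n}] {h : (Fin R → ℕ) → ℕ} (hh : Sw κ D h) (v : Fin R → ℤ)
    (hE : ∀ (m : ℤ) (x z : Fin R → ℕ), (∀ b, 0 < x b) → (∀ b, 0 < z b) →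
      (∀ b, (z b : ℤ) = x b + m * v b) →
      ∃ e : ℕ, ∀ L : ℕ, h (fun b => L * z b) ≤ h (fun b => (L + e) * x b) ∧
        h (fun b => L * x b) ≤ h fun b => (L + e) * z b)
    (w : Fin R → ℝ) (s : ℝ) :
    Hh (fun τ : {τ // ∑ b, κ τ b = n} => ∏ b, ((κ τ b).factorial : ℝ)⁻¹) (fun τ => κ τ)
        (w + s • fun b => (v b : ℝ)) =
      Hh (fun τ : {τ // ∑ b, κ τ b = n} => ∏ b, ((κ τ b).factorial : ℝ)⁻¹) (fun τ => κ τ) w := by
  have e : ∀ b, ((v b).toNat : ℝ) - ((-v b).toNat : ℝ) = v b := fun b => by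
    exact_mod_cast Int.toNat_sub_toNat_neg (v b)
  have h1 := inv_ext (fun τ : {τ // ∑ b, κ τ b = n} => ∏ b, ((κ τ b).factorial : ℝ)⁻¹)
    (fun τ => κ τ) (fun b => (v b).toNat) (fun b => (-v b).toNat) (fun w m => by
      obtain ⟨r, hr⟩ := hE m (fun b => w b + m * (-v b).toNat + 1)
        (fun b => w b + m * (v b).toNat + 1) (fun b => Nat.succ_pos _) (fun b => Nat.succ_pos _)
        fun b => by
          push_cast
          linear_combination (m : ℤ) * Int.toNat_sub_toNat_neg (v b)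
      have k1 := num_lim κ h0 hh (z := fun b => w b + m * (v b).toNat + 1) fun b => Nat.succ_pos _
      have k2 := num_lim κ h0 hh (z := fun b => w b + m * (-v b).toNat + 1) fun b => Nat.succ_pos _
      have h2 := (inv_le k1 k2 fun L => (hr L).1).antisymm (inv_le k2 k1 fun L => (hr L).2)
      simpa only [Hh, Nat.cast_add, Nat.cast_mul, Nat.cast_one] using h2)
    (fun b => w b - s * (-v b).toNat - 1) s
  have h3 : (w + s • fun b => (v b : ℝ)) =
      fun b => w b - s * (-v b).toNat - 1 + s * (v b).toNat + 1 := funext fun b => by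
    change w b + s * v b = _
    linear_combination -s * e b
  have h4 : (fun b => w b - s * (-v b).toNat - 1 + s * (-v b).toNat + 1) = w :=
    funext fun b => by ring
  rwa [h4, ← h3] at h1

end Pool.Agent.Lib.MP_651af7_nt.Am3
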