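import Pool.Agent.Lib.MP_651af7_nt.Am3.Vol

/-! The weights for degrees that may vanish, as a limit. -/

namespace Pool.Agent.Lib.MP_651af7_nt.Am3

open Finset Am2

variable {R q n : ℕ} {T : Type} [Fintype T] [Nonempty T] {c : T → ℝ} {κ : T → Fin R → ℕ}

theorem lim_pos (hc : ∀ τ, 0 < c τ) (hκ : ∀ τ, ∑ b, κ τ b = n) {d : Fin q → Fin R → ℝ}
    (hd : ∀ j b, 0 < d j b) {ρ : Fin n → Fin q → ℝ} (hρ : LinearIndependent ℝ ρ) (h2 : n + 2 ≤ q) :
    ∃ a ∈ stdSimplex ℝ (Fin q), ∀ j (γ : Fin R → ℝ), (∀ b, 0 ≤ γ b) →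
      (∀ i, ∑ b, γ b * ∑ l, ρ i l * d l b = 0) →
        a j * (∑ b, γ b * d j b) * Hh c κ (fun b => ∑ j, a j * d j b) ≤
          (Hh c κ (fun b => ∑ j, a j * d j b) -
            a j * ∑ b, gr c κ (fun b => ∑ j, a j * d j b) b * d j b) *
              ∑ b, γ b * ∑ j, a j * d j b := by
  have : Nonempty (Fin q) := ⟨⟨0, by omega⟩⟩
  obtain ⟨a, μ, a0, h⟩ := real2 hc hκ hd hρ le_rfl h2
  have hS : 0 < ∑ j, a j := sum_pos (fun j _ => a0 j) univ_nonempty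
  obtain ⟨s, hs⟩ : ∃ s, (∑ j, a j)⁻¹ = s := ⟨_, rfl⟩
  have s0 : 0 < s := hs ▸ inv_pos.2 hS
  obtain ⟨x, hx⟩ : ∃ x : Fin R → ℝ, ∀ b, ∑ j, a j * d j b = x b := ⟨_, fun _ => rfl⟩
  have x0 : ∀ b, 0 < x b := fun b =>
    hx b ▸ sum_pos (fun j _ => mul_pos (a0 j) (hd j b)) univ_nonempty
  refine ⟨fun j => s * a j, ⟨fun j => (mul_pos s0 (a0 j)).le, by
    rw [← mul_sum, ← hs, inv_mul_cancel₀ hS.ne']⟩, fun j γ g0 g1 => ?_⟩
  have e1 : ∀ b, ∑ j, s * a j * d j b = s * x b := fun b => by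
    rw [← hx, mul_sum]
    exact sum_congr rfl fun j _ => mul_assoc _ _ _
  simp only [hx] at h
  simp only [e1]
  rw [gr_div fun b => mul_pos s0 (x0 b), Hh_smul c hκ, Dd_smul c hκ]
  have H0 : 0 < Hh c κ x := Hh_pos hc κ x0
  change ∀ j b, _ ∧ a j * (Dd c κ x (d j) / Hh c κ x + _) < 1 at h
  generalize Hh c κ x = H at *
  generalize Dd c κ x = D at *
  have k1 : ∀ b, a j * d j b * H ≤
      (H - a j * D (d j)) * (x b + ∑ i, μ j i * ∑ l, ρ i l * d l b) := fun b => by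
    obtain ⟨k2, k3⟩ := h j b
    generalize x b + ∑ i, μ j i * ∑ l, ρ i l * d l b = z at *
    have k4 := mul_lt_mul_of_pos_right k3 (mul_pos H0 k2)
    have k5 : a j * (D (d j) / H + d j b / z) * (H * z) = a j * D (d j) * z + a j * d j b * H := by
      field_simp
    rw [k5] at k4
    linarith
  have k2 : ∑ b, γ b * (x b + ∑ i, μ j i * ∑ l, ρ i l * d l b) = ∑ b, γ b * x b := by
    have k3 : ∑ b, γ b * ∑ i, μ j i * ∑ l, ρ i l * d l b =
        ∑ i, μ j i * ∑ b, γ b * ∑ l, ρ i l * d l b := by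
      simp only [mul_sum, mul_left_comm (γ _)]
      exact sum_comm
    simp only [mul_add, sum_add_distrib, k3, g1, mul_zero, sum_const_zero, add_zero]
  have k3 : a j * (∑ b, γ b * d j b) * H ≤ (H - a j * D (d j)) * ∑ b, γ b * x b := by
    rw [← k2, mul_sum, mul_sum, sum_mul]
    refine sum_le_sum fun b _ => ?_
    have := mul_le_mul_of_nonneg_left (k1 b) (g0 b)
    linarith
  have k4 : ∑ b, γ b * (s * x b) = s * ∑ b, γ b * x b := by
    rw [mul_sum]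
    exact sum_congr rfl fun b _ => mul_left_comm _ _ _
  have k5 := mul_le_mul_of_nonneg_left k3 (show 0 ≤ s * s ^ n by positivity)
  rw [k4]
  refine le_trans (le_of_eq (by ring)) (k5.trans (le_of_eq ?_))
  field_simp

theorem lim3 (hc : ∀ τ, 0 < c τ) (hκ : ∀ τ, ∑ b, κ τ b = n) (hn : 0 < n)
    {d : Fin q → Fin R → ℝ} (hd : ∀ j b, 0 ≤ d j b) (hb : ∀ j, 0 < Hh c κ (d j))
    {ρ : Fin n → Fin q → ℝ} (hρ : LinearIndependent ℝ ρ) (h2 : n + 2 ≤ q)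
    (hi : ∀ i x, ∑ b, gr c κ x b * ∑ l, ρ i l * d l b = 0) :
    ∃ (a : Fin q → ℝ) (x : Fin R → ℝ), (∀ j, 0 ≤ a j) ∧ ∑ j, a j = 1 ∧
      (∀ b, x b = ∑ j, a j * d j b) ∧ ∀ j (γ : Fin R → ℝ), (∀ b, 0 ≤ γ b) →
        (∀ i, ∑ b, γ b * ∑ l, ρ i l * d l b = 0) → a j * (∑ b, γ b * d j b) * Hh c κ x ≤
          (Hh c κ x - a j * ∑ b, gr c κ x b * d j b) * ∑ b, γ b * x b := by
  obtain ⟨lam, hl⟩ : ∃ lam : Fin q → ℝ, ∀ j, ∑ b, gr c κ (fun b => ∑ l, d l b) b * d j b = lam j :=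
    ⟨_, fun _ => rfl⟩
  have l0 : ∀ j, 0 < lam j := fun j => by
    refine (mul_pos (Nat.cast_pos.2 hn) (hb j)).trans_le ?_
    rw [← Hp_euler hκ, ← hl]
    exact sum_le_sum fun b _ => mul_le_mul_of_nonneg_right (gr_mono hc (hd j)
      (fun b => single_le_sum (fun l _ => hd l b) (mem_univ j)) b) (hd j b)
  have l1 : ∀ i, ∑ l, ρ i l * lam l = 0 := fun i => by
    rw [← hi i fun b => ∑ l, d l b]
    simp only [← hl, mul_sum, mul_left_comm (ρ i _)]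
    exact sum_comm
  have l2 : ∀ (e : ℝ) i b, ∑ l, ρ i l * (d l b + e * lam l) = ∑ l, ρ i l * d l b := fun e i b => by
    simp only [mul_add, sum_add_distrib, mul_left_comm (ρ i _) e, ← mul_sum, l1, mul_zero, add_zero]
  choose a a1 a2 using fun m : ℕ => lim_pos hc hκ (d := fun j b => d j b + 1 / (m + 1) * lam j)
    (fun j b => add_pos_of_nonneg_of_pos (hd j b) (mul_pos Nat.one_div_pos_of_nat (l0 j))) hρ h2
  obtain ⟨a₀, b1, φ, b2, b3⟩ := (isCompact_stdSimplex ℝ (Fin q)).tendsto_subseq a1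
  refine ⟨a₀, fun b => ∑ j, a₀ j * d j b, b1.1, b1.2, fun _ => rfl, fun j γ g0 g1 => ?_⟩
  have t1 := b3.prodMk_nhds
    ((tendsto_one_div_add_atTop_nhds_zero_nat (𝕜 := ℝ)).comp b2.tendsto_atTop)
  have c1 := Hh_cont c κ
  have c2 : Continuous (gr c κ) := continuous_pi (gr_cont c κ)
  have c3 : Continuous fun p : (Fin q → ℝ) × ℝ => p.1 j * (∑ b, γ b * (d j b + p.2 * lam j)) *
      Hh c κ fun b => ∑ j, p.1 j * (d j b + p.2 * lam j) := by fun_prop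
  have c4 : Continuous fun p : (Fin q → ℝ) × ℝ =>
      (Hh c κ (fun b => ∑ j, p.1 j * (d j b + p.2 * lam j)) - p.1 j *
        ∑ b, gr c κ (fun b => ∑ j, p.1 j * (d j b + p.2 * lam j)) b * (d j b + p.2 * lam j)) *
          ∑ b, γ b * ∑ j, p.1 j * (d j b + p.2 * lam j) := by fun_prop
  have t2 := le_of_tendsto_of_tendsto' ((c3.tendsto _).comp t1) ((c4.tendsto _).comp t1) fun m =>
    a2 (φ m) j γ g0 fun i => by simpa only [l2] using g1 i
  simpa only [zero_mul, add_zero] using t2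

end Pool.Agent.Lib.MP_651af7_nt.Am3
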