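import Pool.Agent.Lib.MP_651af7_nt.Am3.Vol
import Pool.Agent.Lib.MP_651af7_nt.Am2.Lim

/-! The count for one divisor, against an integral. -/

namespace Pool.Agent.Lib.MP_651af7_nt.Am3

open Finset Am Am2

variable {R : ℕ} {T : Type} [Fintype T]

theorem one_low (κ : T → Fin R → ℕ) {n D : ℕ} [Fintype {τ // ∑ b, κ τ b = n}]
    {h : (Fin R → ℕ) → ℕ} (hh : Sw κ D h) {Y : Fin R → ℕ} {y : Fin R → ℝ} (h0 : ∀ b, 0 ≤ y b)
    (hy : ∀ b, y b + D ≤ Y b) :
    Hh (fun τ : {τ // ∑ b, κ τ b = n} => ∏ b, ((κ τ b).factorial : ℝ)⁻¹) (fun τ => κ τ) y ≤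
      h Y := by
  classical
  have hD : ∀ b, D ≤ Y b := fun b => by
    have : (D : ℝ) ≤ Y b := by linarith [h0 b, hy b]
    exact_mod_cast this
  refine le_trans ?_ (Nat.cast_le.2 (hh _ hD).1)
  rw [Nat.cast_sum, Hh, ← sum_subtype (univ.filter fun τ => ∑ b, κ τ b = n) (by simp)
    fun τ => (∏ b, ((κ τ b).factorial : ℝ)⁻¹) * ∏ b, y b ^ κ τ b]
  refine le_trans (sum_le_sum fun τ _ => num_low (κ τ) _ _ h0 fun b => ?_)
    (sum_le_sum_of_subset_of_nonneg (filter_subset _ _) fun _ _ _ => Nat.cast_nonneg _)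
  rw [Nat.cast_sub (hD b)]
  linarith [hy b]

theorem one_eps (c : T → ℝ) (κ : T → Fin R → ℕ) (z d : Fin R → ℝ) (t A : ℝ)
    (o : A < ∫ s in (0 : ℝ)..t, Hh c κ (z - s • d)) :
    ∃ ε : ℝ, 0 < ε ∧ ε < 1 ∧ A < ∫ s in (0 : ℝ)..t, Hh c κ ((fun b => z b - ε) - s • d) := by
  have hc : Continuous fun ε : ℝ => ∫ s in (0 : ℝ)..t, Hh c κ ((fun b => z b - ε) - s • d) := by
    refine intervalIntegral.continuous_parametric_intervalIntegral_of_continuous' ?_ 0 t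
    unfold Hh Function.uncurry
    simp only [Pi.sub_apply, Pi.smul_apply, smul_eq_mul]
    fun_prop
  have h1 : ∀ᶠ ε in nhds (0 : ℝ), A < ∫ s in (0 : ℝ)..t, Hh c κ ((fun b => z b - ε) - s • d) :=
    (hc.tendsto 0).eventually (lt_mem_nhds (by simpa only [sub_zero] using o))
  obtain ⟨ε, h2, h3⟩ := ((h1.filter_mono nhdsWithin_le_nhds).and
    (Ioo_mem_nhdsGT (show (0 : ℝ) < 1 from one_pos))).exists
  exact ⟨ε, h3.1, h3.2, h2⟩

theorem one3 (κ : T → Fin R → ℕ) {n D : ℕ} (h0 : ∀ τ, ∑ b, κ τ b ≤ n)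
    [Fintype {τ // ∑ b, κ τ b = n}] {h : (Fin R → ℕ) → ℕ} (hh : Sw κ D h) {x z d : Fin R → ℕ}
    {t : ℕ} {β : ℝ} (e : ℕ) (hx : ∀ b, 0 < x b) (hz : ∀ b, t * d b < z b) (_ : 0 ≤ β)
    (o : β * Hh (fun τ : {τ // ∑ b, κ τ b = n} => ∏ b, ((κ τ b).factorial : ℝ)⁻¹) (fun τ => κ τ)
        (fun b => x b) < ∫ s in (0 : ℝ)..t,
      Hh (fun τ : {τ // ∑ b, κ τ b = n} => ∏ b, ((κ τ b).factorial : ℝ)⁻¹) (fun τ => κ τ)
        ((fun b => (z b : ℝ)) - s • fun b => (d b : ℝ))) :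
    ∀ᶠ L : ℕ in Filter.atTop, ((L + e : ℕ) : ℝ) * β * h (fun b => (L + e) * x b) ≤
      ∑ m ∈ range (L * t), (h fun b => L * z b - (m + 1) * d b : ℝ) := by
  obtain ⟨ε, e0, e1, o⟩ := one_eps _ _ _ _ _ _ o
  have hl0 := (((num_lim κ h0 hh hx).comp (Filter.tendsto_add_atTop_nat e)).const_mul β).mul
    (lim_pow e (le_refl (n + 1)))
  rw [if_pos rfl, mul_one] at hl0
  have hl := hl0.eventually (gt_mem_nhds o)
  have hE : ∀ᶠ L : ℕ in Filter.atTop, (D : ℝ) + ∑ b, (d b : ℝ) ≤ L * ε :=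
    (tendsto_natCast_atTop_atTop.atTop_mul_const e0).eventually_ge_atTop _
  have hc : ∀ τ : {τ // ∑ b, κ τ b = n}, 0 < ∏ b, ((κ τ b).factorial : ℝ)⁻¹ := fun τ =>
    prod_pos fun b _ => by positivity
  generalize hcc : (fun τ : {τ // ∑ b, κ τ b = n} => ∏ b, ((κ τ b).factorial : ℝ)⁻¹) = c at hl
  have hc' : ∀ τ, 0 < c τ := fun τ => by rw [← hcc]; exact hc τ
  filter_upwards [hl, hE, Filter.eventually_gt_atTop 0] with L l1 l2 l3
  have l0 : (0 : ℝ) < L := by exact_mod_cast l3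
  let y : ℝ → Fin R → ℝ := fun s b => L * (z b - ε) - s * d b
  have y0 : ∀ s : ℝ, s ≤ L * t → ∀ b, 0 ≤ y s b := fun s hs b => by
    have k1 : (t : ℝ) * d b + 1 ≤ z b := by exact_mod_cast hz b
    have k2 : s * d b ≤ L * t * d b := mul_le_mul_of_nonneg_right hs (Nat.cast_nonneg _)
    have k3 : (L : ℝ) * (t * d b) ≤ L * (z b - ε) := mul_le_mul_of_nonneg_left (by linarith) l0.le
    simp only [y]
    linarith
  have ha : AntitoneOn (fun s => Hh c (fun τ => κ τ) (y s))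
      (Set.Icc (0 : ℝ) (0 + ((L * t : ℕ) : ℝ))) := fun s _ s' hs' hss => by
    refine Hp_mono hc' (y0 s' (by simpa using hs'.2)) fun b => ?_
    have := mul_le_mul_of_nonneg_right hss (Nat.cast_nonneg (α := ℝ) (d b))
    simp only [y]
    linarith
  have h1 := ha.integral_le_sum
  have h2 : ∫ s in (0 : ℝ)..0 + ((L * t : ℕ) : ℝ), Hh c (fun τ => κ τ) (y s) =
      L * (L ^ n * ∫ s in (0 : ℝ)..t,
        Hh c (fun τ => κ τ) ((fun b => (z b : ℝ) - ε) - s • fun b => (d b : ℝ))) := by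
    rw [← intervalIntegral.integral_const_mul, zero_add, Nat.cast_mul]
    have k := intervalIntegral.mul_integral_comp_mul_left (a := 0) (b := (t : ℝ))
      (f := fun s => Hh c (fun τ => κ τ) (y s)) (c := (L : ℝ))
    rw [mul_zero] at k
    rw [← k]
    congr 1
    refine intervalIntegral.integral_congr fun s _ => ?_
    rw [← Hp_hom (fun τ : {τ // ∑ b, κ τ b = n} => τ.2)]
    refine congrArg _ (funext fun b => ?_)
    simp only [y, Pi.smul_apply, Pi.sub_apply, smul_eq_mul]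
    ring
  rw [h2] at h1
  have h3 : ((L + e : ℕ) : ℝ) * β * h (fun b => (L + e) * x b) =
      L * (L ^ n * (β * ((h (fun b => (L + e) * x b) : ℝ) / ((L + e : ℕ) : ℝ) ^ n) *
        ((L + e : ℝ) ^ (n + 1) / L ^ (n + 1)))) := by
    push_cast
    field_simp
    ring
  rw [h3]
  refine ((mul_le_mul_of_nonneg_left (mul_le_mul_of_nonneg_left l1.le (by positivity))
    l0.le).trans h1).trans (sum_le_sum fun m hm => ?_)
  have hm' : (m : ℝ) ≤ L * t := by exact_mod_cast (mem_range.1 hm).le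
  rw [zero_add, ← hcc]
  have k0 := y0 m hm'
  have k1 : ∀ b, y m b + D + (m + 1) * d b ≤ L * z b := fun b => by
    have := single_le_sum (f := fun b => (d b : ℝ)) (fun _ _ => Nat.cast_nonneg _) (mem_univ b)
    simp only [y]
    linarith
  refine one_low κ hh k0 fun b => ?_
  have k2 : (m + 1) * d b ≤ L * z b := by
    have : ((m : ℝ) + 1) * d b ≤ L * z b := by linarith [k0 b, k1 b, D.cast_nonneg (α := ℝ)]
    exact_mod_cast this
  rw [Nat.cast_sub k2]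
  push_cast
  linarith [k1 b]

end Pool.Agent.Lib.MP_651af7_nt.Am3
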