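import Pool.Agent.Lib.MP_651af7_nt.Am3.Eta
import Pool.Agent.Lib.MP_651af7_nt.Am3.Inv
import Pool.Agent.Lib.MP_651af7_nt.Am3.One

/-! The choice of the multidegrees. -/

namespace Pool.Agent.Lib.MP_651af7_nt.Am3

open Finset Am Am2

variable {R q : ℕ} {T : Type} [Fintype T]

theorem num3_int [Nonempty T] {n : ℕ} {c : T → ℝ} {κ : T → Fin R → ℕ} (hc : ∀ τ, 0 < c τ)
    (hκ : ∀ τ, ∑ b, κ τ b = n) (hn : 0 < n) {d : Fin q → Fin R → ℕ}
    (hb : ∀ j, 0 < Hh c κ fun b => d j b) {ρ : Fin n → Fin q → ℤ}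
    (hρ : LinearIndependent ℝ fun i j => (ρ i j : ℝ)) (h2 : n + 2 ≤ q)
    (hi : ∀ i (w : Fin R → ℝ) (s : ℝ),
      Hh c κ (w + s • fun b => ∑ l, (ρ i l : ℝ) * d l b) = Hh c κ w) {K : ℝ} (hK : 0 < K) :
    ∃ (x : Fin R → ℕ) (z : Fin q → Fin R → ℕ) (μ : Fin q → Fin n → ℤ) (t : Fin q → ℕ)
      (β : Fin q → ℝ) (j₁ : Fin q) (G : ℝ), (∀ b, 0 < x b) ∧ (∀ j b, t j * d j b < z j b) ∧
      (∀ j b, (z j b : ℤ) = x b + ∑ i, μ j i * ∑ l, ρ i l * d l b) ∧ (∀ j, 0 ≤ β j) ∧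
      (∀ j, β j * Hh c κ (fun b => x b) < ∫ s in (0 : ℝ)..t j,
        Hh c κ ((fun b => (z j b : ℝ)) - s • fun b => (d j b : ℝ))) ∧
      0 < G ∧ G ≤ β j₁ ∧ ∀ b, x b + G * d j₁ b < ∑ j, β j * d j b + G / K := by
  obtain ⟨x, μ, t, β, j₁, G, r1, r2, r3, r4, r5, r6, r7, r8⟩ :=
    real3 (d := fun j b => (d j b : ℝ)) hc hκ hn (fun j b => Nat.cast_nonneg _) hb hρ h2 hi hK
  obtain ⟨s, v, s0, v1, v2, v3, v4, v5⟩ := int_pt
    (p := Sum.elim x (Sum.elim (fun u : Fin q × Fin n => μ u.1 u.2) t))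
    (U := {p | (∀ b, 0 < p (.inl b)) ∧ (∀ j, 0 < p (.inr (.inr j))) ∧
      (∀ j b, p (.inr (.inr j)) * d j b <
        p (.inl b) + ∑ i, p (.inr (.inl (j, i))) * ∑ l, (ρ i l : ℝ) * d l b) ∧
      (∀ j, β j * Hh c κ (fun b => p (.inl b)) < ∫ s in (0 : ℝ)..p (.inr (.inr j)),
        Hh c κ ((fun b => p (.inl b) + ∑ i, p (.inr (.inl (j, i))) * ∑ l, (ρ i l : ℝ) * d l b) -
          s • fun b => (d j b : ℝ))) ∧
      ∀ b, p (.inl b) + G * d j₁ b < ∑ j, β j * d j b + G / K}) (by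
    refine (Filter.eventually_all.2 fun b => ?_).and ((Filter.eventually_all.2 fun j => ?_).and
      ((Filter.eventually_all.2 fun j => Filter.eventually_all.2 fun b => ?_).and
      ((Filter.eventually_all.2 fun j => ?_).and (Filter.eventually_all.2 fun b => ?_))))
    · exact ContinuousAt.eventually_lt continuousAt_const (continuousAt_apply _ _) (r1 b)
    · exact ContinuousAt.eventually_lt continuousAt_const (continuousAt_apply _ _) (r2 j)
    · exact ContinuousAt.eventually_lt (Continuous.continuousAt (by fun_prop))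
        (Continuous.continuousAt (by fun_prop)) (r3 j b)
    · exact ContinuousAt.eventually_lt
        (continuous_const.mul ((Hh_cont c κ).comp (by fun_prop))).continuousAt
        (intervalIntegral.continuous_parametric_intervalIntegral_of_continuous
          (by unfold Function.uncurry; exact (Hh_cont c κ).comp (by fun_prop))
          (continuous_apply _)).continuousAt (r5 j)
    · exact ContinuousAt.eventually_lt (Continuous.continuousAt (by fun_prop)) continuousAt_const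
        (r8 b))
  simp only [mul_assoc, ← mul_sum, ← mul_add, mul_pos_iff_of_pos_left s0,
    mul_lt_mul_iff_right₀ s0] at v1 v2 v3 v4
  have w1 : ∀ b, 0 < v (.inl b) := fun b => by exact_mod_cast v1 b
  have w2 : ∀ j, 0 < v (.inr (.inr j)) := fun j => by exact_mod_cast v2 j
  have w3 : ∀ j b, v (.inr (.inr j)) * d j b <
      v (.inl b) + ∑ i, v (.inr (.inl (j, i))) * ∑ l, ρ i l * d l b := fun j b => by
    exact_mod_cast v3 j b
  have e1 : ∀ b, (((v (.inl b)).toNat : ℕ) : ℤ) = v (.inl b) := fun b =>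
    Int.toNat_of_nonneg (w1 b).le
  have e2 : ∀ j, (((v (.inr (.inr j))).toNat : ℕ) : ℤ) = v (.inr (.inr j)) := fun j =>
    Int.toNat_of_nonneg (w2 j).le
  have e3 : ∀ j b, (((v (.inl b) + ∑ i, v (.inr (.inl (j, i))) * ∑ l, ρ i l * d l b).toNat : ℕ) :
      ℤ) = v (.inl b) + ∑ i, v (.inr (.inl (j, i))) * ∑ l, ρ i l * d l b := fun j b =>
    Int.toNat_of_nonneg ((mul_nonneg (w2 j).le (Nat.cast_nonneg _)).trans (w3 j b).le)
  have f1 : ∀ b, (((v (.inl b)).toNat : ℕ) : ℝ) = v (.inl b) := fun b => by exact_mod_cast e1 b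
  have f2 : ∀ j, (((v (.inr (.inr j))).toNat : ℕ) : ℝ) = v (.inr (.inr j)) := fun j => by
    exact_mod_cast e2 j
  have f3 : ∀ j b, (((v (.inl b) + ∑ i, v (.inr (.inl (j, i))) * ∑ l, ρ i l * d l b).toNat : ℕ) :
      ℝ) = v (.inl b) + ∑ i, (v (.inr (.inl (j, i))) : ℝ) * ∑ l, (ρ i l : ℝ) * d l b :=
    fun j b => by exact_mod_cast e3 j b
  refine ⟨fun b => (v (.inl b)).toNat,
    fun j b => (v (.inl b) + ∑ i, v (.inr (.inl (j, i))) * ∑ l, ρ i l * d l b).toNat,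
    fun j i => v (.inr (.inl (j, i))), fun j => (v (.inr (.inr j))).toNat, fun j => β j / s, j₁,
    G / s, fun b => ?_, fun j b => ?_, fun j b => by rw [e3, e1], fun j => div_nonneg (r4 j) s0.le,
    fun j => ?_, div_pos r6 s0, div_le_div_of_nonneg_right r7 s0.le, fun b => ?_⟩
  · exact Int.pos_iff_toNat_pos.1 (w1 b)
  · have := w3 j b
    rw [← e3, ← e2] at this
    exact_mod_cast this
  · have k := v4 j
    simp only [f1, f2, f3]
    rw [Hh_smul c hκ, ← mul_zero s, ← intervalIntegral.mul_integral_comp_mul_left] at k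
    have k2 : ∀ u : ℝ, Hh c κ ((fun b => s * (v (.inl b) + ∑ i, (v (.inr (.inl (j, i))) : ℝ) *
        ∑ l, (ρ i l : ℝ) * d l b)) - (s * u) • fun b => (d j b : ℝ)) = s ^ n * Hh c κ
        ((fun b => (v (.inl b) + ∑ i, (v (.inr (.inl (j, i))) : ℝ) * ∑ l, (ρ i l : ℝ) * d l b)) -
          u • fun b => (d j b : ℝ)) := fun u => by
      rw [← Hh_smul c hκ]
      exact congrArg _ (funext fun b => by simp only [Pi.sub_apply, Pi.smul_apply, smul_eq_mul]; ring)
    simp only [k2, intervalIntegral.integral_const_mul] at k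
    rw [div_mul_eq_mul_div, div_lt_iff₀ s0]
    have k3 := pow_pos s0 n
    nlinarith
  · have k := v5 b
    simp only [f1, div_mul_eq_mul_div, ← sum_div, div_right_comm G s]
    rw [← add_div, lt_div_iff₀ s0, add_mul, div_mul_cancel₀ _ s0.ne']
    linarith

theorem num3 (κ : T → Fin R → ℕ) {n D : ℕ} (hκ : ∀ τ, ∑ b, κ τ b ≤ n)
    {h : (Fin R → ℕ) → ℕ} (hh : Sw κ D h) {d : Fin q → Fin R → ℕ} (hn : 0 < n)
    (hb : ∀ j, ∃ τ, ∑ b, κ τ b = n ∧ ∀ b, d j b = 0 → κ τ b = 0)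
    {ρ : Fin n → Fin q → ℤ} (hρ : LinearIndependent ℝ fun i j => (ρ i j : ℝ))
    (h2 : n + 2 ≤ q) (E : (Fin R → ℕ) → (Fin R → ℕ) → Prop)
    (hE : ∀ (μ : Fin n → ℤ) (x z : Fin R → ℕ), (∀ b, 0 < x b) → (∀ b, 0 < z b) →
      (∀ b, (z b : ℤ) = x b + ∑ i, μ i * ∑ l, ρ i l * d l b) → ∃ e : ℕ, ∀ L : ℕ,
        E (fun b => L * z b) (fun b => (L + e) * x b) ∧
        h (fun b => L * z b) ≤ h (fun b => (L + e) * x b) ∧
        h (fun b => L * x b) ≤ h fun b => (L + e) * z b)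
    (K : ℕ) :
    ∃ (Y : Fin R → ℕ) (Z : Fin q → Fin R → ℕ) (a M : Fin q → ℕ) (j₁ : Fin q) (G G' : ℕ),
      (∀ j b, d j b ≤ Y b) ∧ (∀ j, E (Z j) Y) ∧ (∀ j b, M j * d j b ≤ Z j b) ∧
      (∀ j, a j * h Y ≤ 1 * ∑ m ∈ range (M j), h fun b => Z j b - (m + 1) * d j b) ∧
      0 < G ∧ G ≤ a j₁ ∧ K * G' ≤ G ∧ ∀ b, Y b + G * d j₁ b ≤ ∑ j, a j * d j b + G' := by
  classical
  have : Nonempty {τ // ∑ b, κ τ b = n} := (hb ⟨0, by omega⟩).elim fun τ h => ⟨⟨τ, h.1⟩⟩
  have hc : ∀ τ : {τ // ∑ b, κ τ b = n}, 0 < ∏ b, ((κ τ b).factorial : ℝ)⁻¹ := fun τ =>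
    prod_pos fun b _ => by positivity
  obtain ⟨x, z, μ, t, β, j₁, G, o1, o2, o3, o4, o5, o6, o7, o8⟩ :=
    num3_int (κ := fun τ : {τ // ∑ b, κ τ b = n} => κ τ) (d := d) hc (fun τ => τ.2) hn
      (fun j => (hb j).elim fun τ h => sum_pos' (fun τ _ => mul_nonneg (hc τ).le (by positivity))
        ⟨⟨τ, h.1⟩, mem_univ _, mul_pos (hc _) (prod_pos fun b _ => by
          rcases (d j b).eq_zero_or_pos with e | e
          · simp [h.2 b e]
          · positivity)⟩) hρ h2 (fun i w s => by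
      have := inv3 κ hκ hh (fun b => ∑ l, ρ i l * d l b) (fun m x z hx hz e =>
        (hE (Pi.single i m) x z hx hz fun b => by
          rw [e, sum_eq_single i (fun k _ hk => by simp [hk]) (by simp)]
          simp).imp fun e he L => (he L).2) w s
      push_cast at this
      exact this) (K := K + 1) (by positivity)
  have tl : ∀ (g A : ℝ), 0 < g → ∀ᶠ L : ℕ in Filter.atTop, A ≤ L * g := fun g A hg =>
    (tendsto_natCast_atTop_atTop.atTop_mul_const hg).eventually_ge_atTop A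
  choose e he using fun j => hE (μ j) x (z j) o1 (fun b => Nat.zero_lt_of_lt (o2 j b)) (o3 j)
  obtain ⟨L, l1, l2, l3, l4, l5⟩ := ((Filter.eventually_all.2 fun j =>
    (Filter.tendsto_sub_atTop_nat (e j)).eventually
      (one3 κ hκ hh (e j) o1 (o2 j) (o4 j) (o5 j))).and ((Filter.eventually_all.2 fun j =>
      Filter.eventually_ge_atTop (e j)).and
    ((Filter.eventually_all.2 fun j => Filter.eventually_all.2 fun b =>
      Filter.eventually_ge_atTop (d j b)).and ((tl G 1 o6).and (Filter.eventually_all.2 fun b =>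
        tl _ (∑ j, (d j b : ℝ) + 1) (sub_pos.2 (o8 b))))))).exists
  have L0 : (0 : ℝ) ≤ L := Nat.cast_nonneg L
  have K0 : (0 : ℝ) < K + 1 := by positivity
  have g0 : 0 ≤ L * G := zero_le_one.trans l4
  have l6 := fun j => (he j (L - e j)).1
  simp only [Nat.sub_add_cancel (l2 _)] at l1 l6
  refine ⟨fun b => L * x b, fun j b => (L - e j) * z j b, fun j => ⌊L * β j⌋₊,
    fun j => (L - e j) * t j, j₁, ⌊L * G⌋₊, ⌊L * G / (K + 1)⌋₊,
    fun j b => (l3 j b).trans (Nat.le_mul_of_pos_right _ (o1 b)), l6, fun j b => ?_, fun j => ?_, Nat.floor_pos.2 l4,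
    Nat.floor_mono (mul_le_mul_of_nonneg_left o7 L0), Nat.le_floor ?_, fun b => ?_⟩
  · rw [mul_assoc]
    exact Nat.mul_le_mul_left _ (o2 j b).le
  · have k := (mul_le_mul_of_nonneg_right (Nat.floor_le (mul_nonneg L0 (o4 j)))
      (Nat.cast_nonneg (h fun b => L * x b))).trans (l1 j)
    rw [one_mul]
    exact_mod_cast k
  · have k := (le_div_iff₀ K0).1 (Nat.floor_le (div_nonneg g0 K0.le))
    have k2 : (0 : ℝ) ≤ ⌊L * G / (K + 1)⌋₊ := Nat.cast_nonneg _
    push_cast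
    nlinarith
  · have k1 := mul_le_mul_of_nonneg_right (Nat.floor_le g0) (Nat.cast_nonneg (α := ℝ) (d j₁ b))
    have k2 := Nat.lt_floor_add_one (L * G / (K + 1))
    have k3 : L * ∑ j, β j * d j b ≤ ∑ j, (⌊L * β j⌋₊ : ℝ) * d j b + ∑ j, (d j b : ℝ) := by
      rw [mul_sum, ← sum_add_distrib]
      exact sum_le_sum fun j _ => by
        nlinarith [Nat.lt_floor_add_one (L * β j), Nat.cast_nonneg (α := ℝ) (d j b)]
    have k4 := l5 b
    rw [mul_div_assoc] at k2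
    rw [← Nat.cast_le (α := ℝ)]
    push_cast
    rw [mul_div_assoc]
    nlinarith

end Pool.Agent.Lib.MP_651af7_nt.Am3
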