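import Pool.Agent.Lib.MP_651af7_nt.Am2.Lp

/-! The volume polynomial and its gradient. -/

namespace Pool.Agent.Lib.MP_651af7_nt.Am3

open Finset Am2

variable {R : ℕ} {T : Type} [Fintype T] (c : T → ℝ) (κ : T → Fin R → ℕ)

/-- The gradient of the volume polynomial. -/
def gr (x : Fin R → ℝ) (b : Fin R) : ℝ :=
  ∑ τ, c τ * ((∏ b' ∈ univ.erase b, x b' ^ κ τ b') * (κ τ b * x b ^ (κ τ b - 1)))

theorem gr_cont (b : Fin R) : Continuous fun x => gr c κ x b := by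
  unfold gr
  fun_prop

theorem Hp_der (x d : Fin R → ℝ) (t : ℝ) :
    HasDerivAt (fun t : ℝ => Hh c κ (x + t • d)) (∑ b, gr c κ (x + t • d) b * d b) t := by
  have h1 : ∀ τ b, HasDerivAt (fun t : ℝ => (x + t • d) b ^ κ τ b)
      (κ τ b * (x + t • d) b ^ (κ τ b - 1) * d b) t := fun τ b => by
    simpa using (((hasDerivAt_id t).mul_const (d b)).const_add (x b)).fun_pow (κ τ b)
  have h2 := HasDerivAt.fun_sum fun τ (_ : τ ∈ univ) =>
    (HasDerivAt.fun_finsetProd fun b (_ : b ∈ univ) => h1 τ b).const_mul (c τ)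
  refine h2.congr_deriv ?_
  simp only [gr, sum_mul, mul_sum, smul_eq_mul, mul_assoc]
  exact sum_comm

/-- The lower bound for the mean order of vanishing. -/
noncomputable def Lw (n : ℕ) (x d : Fin R → ℝ) (t : ℝ) : ℝ :=
  t / (t * (∑ b, gr c κ x b * d b) / Hh c κ x + 1) +
    t ^ (n + 1) * Hh c κ d * ((n - t * (∑ b, gr c κ x b * d b) / Hh c κ x) ^ 2 /
      ((t * (∑ b, gr c κ x b * d b) / Hh c κ x + 1) ^ 2 * (n + 1))) / Hh c κ x

variable {c κ} {n : ℕ}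

theorem Hp_euler (hκ : ∀ τ, ∑ b, κ τ b = n) (x : Fin R → ℝ) :
    ∑ b, gr c κ x b * x b = n * Hh c κ x := by
  simp only [gr, Hh, sum_mul, mul_sum]
  rw [sum_comm]
  refine sum_congr rfl fun τ _ => ?_
  rw [← hκ τ, Nat.cast_sum, sum_mul]
  refine sum_congr rfl fun b _ => ?_
  rw [← prod_erase_mul univ _ (mem_univ b)]
  rcases κ τ b with _ | k
  · simp
  · rw [Nat.add_sub_cancel, pow_succ]
    ring

theorem Hp_hom (hκ : ∀ τ, ∑ b, κ τ b = n) (t : ℝ) (x : Fin R → ℝ) :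
    Hh c κ (t • x) = t ^ n * Hh c κ x := by
  simp only [Hh, mul_sum, Pi.smul_apply, smul_eq_mul, mul_pow, prod_mul_distrib,
    prod_pow_eq_pow_sum, hκ, mul_left_comm]

theorem Hp_nonneg (hc : ∀ τ, 0 < c τ) {x : Fin R → ℝ} (hx : ∀ b, 0 ≤ x b) : 0 ≤ Hh c κ x :=
  sum_nonneg fun τ _ => mul_nonneg (hc τ).le (prod_nonneg fun b _ => pow_nonneg (hx b) _)

theorem Hp_mono (hc : ∀ τ, 0 < c τ) {x y : Fin R → ℝ} (hx : ∀ b, 0 ≤ x b) (h : ∀ b, x b ≤ y b) :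
    Hh c κ x ≤ Hh c κ y :=
  sum_le_sum fun τ _ => mul_le_mul_of_nonneg_left (prod_le_prod (fun b _ => pow_nonneg (hx b) _)
    fun b _ => pow_le_pow_left₀ (hx b) (h b) _) (hc τ).le

theorem gr_nonneg (hc : ∀ τ, 0 < c τ) {x : Fin R → ℝ} (hx : ∀ b, 0 ≤ x b) (b : Fin R) :
    0 ≤ gr c κ x b :=
  sum_nonneg fun τ _ => mul_nonneg (hc τ).le (mul_nonneg
    (prod_nonneg fun b _ => pow_nonneg (hx b) _)
    (mul_nonneg (Nat.cast_nonneg _) (pow_nonneg (hx b) _)))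

theorem gr_mono (hc : ∀ τ, 0 < c τ) {x y : Fin R → ℝ} (hx : ∀ b, 0 ≤ x b) (h : ∀ b, x b ≤ y b)
    (b : Fin R) : gr c κ x b ≤ gr c κ y b :=
  sum_le_sum fun τ _ => mul_le_mul_of_nonneg_left (mul_le_mul
    (prod_le_prod (fun b _ => pow_nonneg (hx b) _) fun b _ => pow_le_pow_left₀ (hx b) (h b) _)
    (mul_le_mul_of_nonneg_left (pow_le_pow_left₀ (hx b) (h b) _) (Nat.cast_nonneg _))
    (mul_nonneg (Nat.cast_nonneg _) (pow_nonneg (hx b) _))
    (prod_nonneg fun b _ => pow_nonneg ((hx b).trans (h b)) _)) (hc τ).le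

theorem gr_orth {v : Fin R → ℝ} (h : ∀ (w : Fin R → ℝ) (s : ℝ), Hh c κ (w + s • v) = Hh c κ w)
    (x : Fin R → ℝ) : ∑ b, gr c κ x b * v b = 0 := by
  have h1 := Hp_der c κ x v 0
  simp only [h, zero_smul, add_zero] at h1
  exact h1.unique (hasDerivAt_const _ _)

theorem gr_div {x : Fin R → ℝ} (hx : ∀ b, 0 < x b) (d : Fin R → ℝ) :
    ∑ b, gr c κ x b * d b = Dd c κ x d := by
  simp only [Dd, gr, sum_mul, mul_sum]
  rw [sum_comm]
  refine sum_congr rfl fun τ _ => sum_congr rfl fun b _ => ?_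
  rw [← prod_erase_mul univ _ (mem_univ b)]
  have := (hx b).ne'
  rcases κ τ b with _ | k
  · simp
  · rw [Nat.add_sub_cancel, pow_succ]
    field_simp

end Pool.Agent.Lib.MP_651af7_nt.Am3
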